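import Pool.Agent.Q100.Rig

/-!
# A quasi-rigid operator whose `Ω(T)` is not covered by the closure of an orbit of `L_T`

The definitions are in `Pool/Agent/Q100/RigDefs.lean`.
-/

set_option autoImplicit false

namespace Pool.Agent.Results.MP_24d2d6_an.NoCoveringOrbit

open Q100.Rig

/-- The negated form of Q1, for real and for complex scalars: there are a separable Banach space
`E` and a quasi-rigid operator `T` on `E` such that for every operator `Λ` on `E` some element of
`Ω(T)` lies outside the closure of `{Tⁿ Λ : n ≥ 1}` in the strong operator topology. -/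
theorem result : ∀ (𝕜 : Type) [RCLike 𝕜], ∃ (E : Type) (_ : NormedAddCommGroup E)
    (_ : NormedSpace 𝕜 E) (_ : CompleteSpace E) (_ : TopologicalSpace.SeparableSpace E)
    (T : E →L[𝕜] E), QuasiRigid T ∧ ∀ Lam : E →L[𝕜] E,
      ∃ h ∈ OmegaSet T, h ∉ sotClosure (leftOrbit T Lam) := by
  intro 𝕜 _
  exact ⟨X 𝕜, inferInstance, inferInstance, inferInstance, inferInstance, T 𝕜, quasiRigid,
    fun Lam => main Lam⟩

end Pool.Agent.Results.MP_24d2d6_an.NoCoveringOrbit
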